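import Pool.Agent.K.MP_0993da_nt.C0

namespace Pool.Agent.Results.MP_0993da_nt.PositiveDensity

/-- For every nonzero integer `a` (in particular `a = 1` and `a = -1`), a positive proportion of
all `n ≤ N` have at least `N ^ (1 / 7)` values `k` with `1 ≤ k ≤ n - 1` and `k * p_(n-k) + a` prime.
Here `p_m = Nat.nth Nat.Prime (m - 1)` is the `m`-th prime. -/
theorem result (a : ℤ) (ha : a ≠ 0) : ∃ c : ℝ, 0 < c ∧ ∀ᶠ N : ℕ in Filter.atTop,
    c * N ≤ ((Finset.Icc 1 N).filter (fun n : ℕ => N ≤ ((Finset.Ico 1 n).filter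
      (fun k : ℕ => ((k : ℤ) * Nat.nth Nat.Prime (n - k - 1) + a).toNat.Prime)).card ^ 7)).card :=
  Pool.Agent.P.MP_0993da_nt.main a ha

end Pool.Agent.Results.MP_0993da_nt.PositiveDensity
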